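import Mathlib

namespace Pool.Agent.Results.MP_6c5f5a_co.OneLeaf

/-- `G` has a connected partition of every type -/
def AllTypes {n : ℕ} (G : SimpleGraph (Fin n)) : Prop :=
  ∀ l : Nat.Partition n, ∃ P : Finpartition (Finset.univ : Finset (Fin n)),
    (∀ B ∈ P.parts, (G.induce (B : Set (Fin n))).Connected) ∧ P.parts.val.map Finset.card = l.parts

def par (v : ℕ) : ℕ := if v = 17 ∨ v = 29 ∨ v = 31 then 0 else v - 1

def G : SimpleGraph (Fin 32) where
  Adj a b := a ≠ b ∧ (a.val = par b ∨ b.val = par a)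
  symm := ⟨fun _ _ h => ⟨h.1.symm, h.2.symm⟩⟩
  loopless := ⟨fun _ h => h.1 rfl⟩

instance : DecidableRel G.Adj := fun _ _ => inferInstanceAs (Decidable (_ ∧ _))

theorem conn (B : Finset (Fin 32)) (r : Fin 32) (hr : r ∈ B)
    (h : ∀ v ∈ B, v ≠ r → 0 < v.val ∧ ∃ u ∈ B, u.val = par v) :
    (G.induce (B : Set (Fin 32))).Connected := by
  have key : ∀ n (v : Fin 32) (hv : v ∈ B), v.val < n →
      (G.induce (B : Set (Fin 32))).Reachable ⟨r, hr⟩ ⟨v, hv⟩ := by
    intro n
    induction n with
    | zero => intro v _ h; omega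
    | succ n ih =>
      intro v hv hn
      by_cases e : v = r
      · subst e; rfl
      · obtain ⟨h0, u, hu, hp⟩ := h v hv e
        have hlt : u.val < v.val := by rw [hp]; unfold par; split_ifs <;> omega
        have ha : G.Adj u v := ⟨fun e => by rw [e] at hlt; omega, Or.inl hp⟩
        exact (ih u hu (by omega)).trans (SimpleGraph.Adj.reachable ha)
  have : Nonempty (B : Set (Fin 32)) := ⟨⟨r, hr⟩⟩
  exact ⟨fun a b => (key _ a.1 a.2 (Nat.lt_succ_self _)).symm.trans (key _ b.1 b.2 (Nat.lt_succ_self _))⟩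

def Q (S : Finset (Fin 32)) (m : Multiset ℕ) : Prop :=
  ∃ P : Finpartition S, (∀ B ∈ P.parts, (G.induce (B : Set (Fin 32))).Connected) ∧
    P.parts.val.map Finset.card = m

theorem Q_ext {S T : Finset (Fin 32)} {m : Multiset ℕ} (h : Q S m) (B : Finset (Fin 32))
    (hB : (G.induce (B : Set (Fin 32))).Connected) (hd : Disjoint S B) (hT : S ∪ B = T) :
    Q T (B.card ::ₘ m) := by
  obtain ⟨P, h1, h2⟩ := h
  have hne : B ≠ ⊥ := by
    obtain ⟨⟨x, hx⟩⟩ := hB.nonempty
    exact Finset.ne_empty_of_mem hx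
  have hnot : B ∉ P.parts := fun hb => hne (hd.symm.eq_bot_of_le (P.le hb))
  refine ⟨P.extend hne hd hT, fun C hC => ?_, ?_⟩
  · rcases Finset.mem_insert.1 hC with rfl | hC
    · exact hB
    · exact h1 C hC
  · show (insert B P.parts).val.map Finset.card = _
    rw [Finset.insert_val_of_notMem hnot, Multiset.map_cons, h2]

def S (a b c d : ℕ) : Finset (Fin 32) := Finset.univ.filter fun v =>
  v.val ≤ a ∨ (17 ≤ v.val ∧ v.val < 17 + b) ∨ (29 ≤ v.val ∧ v.val < 29 + c) ∨ (31 ≤ v.val ∧ v.val < 31 + d)

def I (x k : ℕ) : Finset (Fin 32) := Finset.univ.filter fun v => x ≤ v.val ∧ v.val < x + k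

theorem I_card : ∀ x < 32, ∀ k < 33, x + k ≤ 32 → (I x k).card = k := by decide +kernel

theorem S_card : ∀ a < 17, ∀ b < 13, ∀ c < 3, ∀ d < 2, (S a b c d).card = 1 + a + b + c + d := by
  decide +kernel

theorem I_conn (x k : ℕ) (hk : 0 < k) (hx : x + k ≤ 32)
    (h : ∀ v, x < v → v < x + k → par v = v - 1) : (G.induce (I x k : Set (Fin 32))).Connected := by
  refine conn _ ⟨x, by omega⟩ (by simp [I]; omega) fun v hv hne => ?_
  simp only [I, Finset.mem_filter, Finset.mem_univ, true_and] at hv ⊢
  have : v.val ≠ x := fun e => hne (Fin.ext e)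
  exact ⟨by omega, ⟨v - 1, by omega⟩, by dsimp only; omega, (h v (by omega) hv.2).symm⟩

theorem ext {a b c d a' b' c' d' : ℕ} {m : Multiset ℕ} (h : Q (S a b c d) m) (x k : ℕ) (hk : 0 < k)
    (hx : x + k ≤ 32) (h1 : ∀ v, x < v → v < x + k → par v = v - 1)
    (hd : Disjoint (S a b c d) (I x k)) (hu : S a b c d ∪ I x k = S a' b' c' d') :
    Q (S a' b' c' d') (k ::ₘ m) := by
  have := Q_ext h (I x k) (I_conn x k hk hx h1) hd hu
  rwa [I_card x (by omega) k (by omega) hx] at this

theorem base (a b c d : ℕ) (ha : a ≤ 16) (hb : b ≤ 12) (hc : c ≤ 2) (hd : d ≤ 1) :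
    Q (S a b c d) {1 + a + b + c + d} := by
  have h0 : Q ∅ 0 := ⟨Finpartition.empty _, by simp, by simp⟩
  have := Q_ext h0 (S a b c d) (conn _ 0 (by simp [S]) fun v hv hne => ?_) (by simp)
    (Finset.empty_union _)
  · rwa [S_card a (by omega) b (by omega) c (by omega) d (by omega)] at this
  · simp only [S, Finset.mem_filter, Finset.mem_univ, true_and] at hv ⊢
    have : v.val ≠ 0 := fun e => hne (Fin.ext e)
    refine ⟨by omega, ⟨par v, ?_⟩, ?_, rfl⟩
    · unfold par; split_ifs <;> omega
    · dsimp only; unfold par; split_ifs <;> omega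

def go : List ℕ → ℕ → ℕ → ℕ → ℕ → ℕ → Bool
  | [], a, b, c, d, z => z == 1 + a + b + c + d
  | k :: l, a, b, c, d, z =>
    (decide (k ≤ d) && go l a b c (d - k) z) || (decide (k ≤ c) && go l a b (c - k) d z) ||
    (decide (k ≤ b) && go l a (b - k) c d z) || (decide (k ≤ a) && go l (a - k) b c d z) ||
    (z == 0 && go l a b c d k)

theorem go_ok (l : List ℕ) : ∀ a b c d z, a ≤ 16 → b ≤ 12 → c ≤ 2 → d ≤ 1 → (∀ k ∈ l, 0 < k) →
    go l a b c d z = true → Q (S a b c d) ((l : Multiset ℕ) + if z = 0 then 0 else {z}) := by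
  induction l with
  | nil =>
    intro a b c d z ha hb hc hd _ h
    simp only [go, beq_iff_eq] at h
    subst h
    simpa using base a b c d ha hb hc hd
  | cons k l ih =>
    intro a b c d z ha hb hc hd hp h
    have hk : 0 < k := hp k (by simp)
    have hl : ∀ k ∈ l, 0 < k := fun x hx => hp x (by simp [hx])
    simp only [go, Bool.or_eq_true, Bool.and_eq_true, decide_eq_true_eq, beq_iff_eq] at h
    rw [← Multiset.cons_coe, Multiset.cons_add]
    rcases h with (((⟨h1, h⟩ | ⟨h1, h⟩) | ⟨h1, h⟩) | ⟨h1, h⟩) | ⟨h1, h⟩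
    · refine ext (ih _ _ _ _ _ ha hb hc (by omega) hl h) (31 + (d - k)) k hk (by omega) ?_ ?_ ?_
      · intro v _ _; unfold par; split_ifs <;> omega
      · rw [Finset.disjoint_left]; intro v; simp only [S, I, Finset.mem_filter, Finset.mem_univ, true_and]; omega
      · ext v; simp only [S, I, Finset.mem_union, Finset.mem_filter, Finset.mem_univ, true_and]; omega
    · refine ext (ih _ _ _ _ _ ha hb (by omega) hd hl h) (29 + (c - k)) k hk (by omega) ?_ ?_ ?_
      · intro v _ _; unfold par; split_ifs <;> omega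
      · rw [Finset.disjoint_left]; intro v; simp only [S, I, Finset.mem_filter, Finset.mem_univ, true_and]; omega
      · ext v; simp only [S, I, Finset.mem_union, Finset.mem_filter, Finset.mem_univ, true_and]; omega
    · refine ext (ih _ _ _ _ _ ha (by omega) hc hd hl h) (17 + (b - k)) k hk (by omega) ?_ ?_ ?_
      · intro v _ _; unfold par; split_ifs <;> omega
      · rw [Finset.disjoint_left]; intro v; simp only [S, I, Finset.mem_filter, Finset.mem_univ, true_and]; omega
      · ext v; simp only [S, I, Finset.mem_union, Finset.mem_filter, Finset.mem_univ, true_and]; omega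
    · refine ext (ih _ _ _ _ _ (by omega) hb hc hd hl h) (1 + (a - k)) k hk (by omega) ?_ ?_ ?_
      · intro v _ _; unfold par; split_ifs <;> omega
      · rw [Finset.disjoint_left]; intro v; simp only [S, I, Finset.mem_filter, Finset.mem_univ, true_and]; omega
      · ext v; simp only [S, I, Finset.mem_union, Finset.mem_filter, Finset.mem_univ, true_and]; omega
    · have := ih _ _ _ _ _ ha hb hc hd hl h
      rw [if_neg hk.ne'] at this
      rw [h1, if_pos rfl, add_zero]
      rwa [add_comm, Multiset.singleton_add] at this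

def chk : ℕ → ℕ → ℕ → List ℕ → Bool
  | 0, n, _, acc => n == 0 && go acc 16 12 2 1 0
  | f + 1, n, m, acc => if n = 0 then go acc 16 12 2 1 0 else
      (List.range (min n m)).all fun j => chk f (n - (j + 1)) (j + 1) ((j + 1) :: acc)

theorem chk_ok (l : List ℕ) : ∀ f n m acc, chk f n m acc = true → l.Pairwise (· ≥ ·) →
    (∀ k ∈ l, 0 < k ∧ k ≤ m) → l.sum = n → go (l.reverse ++ acc) 16 12 2 1 0 = true := by
  induction l with
  | nil =>
    intro f n m acc h _ _ hs
    simp only [List.sum_nil] at hs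
    subst hs
    cases f <;> simpa [chk] using h
  | cons k l ih =>
    intro f n m acc h hp hk hs
    have h0 := hk k (by simp)
    simp only [List.sum_cons] at hs
    cases f with
    | zero => simp only [chk, Bool.and_eq_true, beq_iff_eq] at h; omega
    | succ f =>
      simp only [chk, if_neg (by omega : ¬ n = 0), List.all_eq_true, List.mem_range] at h
      have h1 := h (k - 1) (by omega)
      rw [show k - 1 + 1 = k by omega] at h1
      rw [List.pairwise_cons] at hp
      simpa using ih f _ k _ h1 hp.2 (fun x hx => ⟨(hk x (by simp [hx])).1, hp.1 x hx⟩) (by omega)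

theorem hchk : chk 32 32 32 [] = true := by decide +kernel

theorem result : ∃ (n : ℕ) (G : SimpleGraph (Fin n)) (_ : DecidableRel G.Adj),
    G.IsTree ∧ G.maxDegree = 4 ∧ AllTypes G ∧
      ∀ v, G.degree v = 4 → ((G.neighborFinset v).filter fun u => G.degree u = 1).card ≤ 1 := by
  have hu : S 16 12 2 1 = Finset.univ := by decide +kernel
  refine ⟨32, G, inferInstance, ?_, by decide +kernel, fun l => ?_, by decide +kernel⟩
  · rw [SimpleGraph.isTree_iff_connected_and_card]
    refine ⟨?_, ?_⟩
    · have := conn Finset.univ 0 (by simp) (by decide +kernel)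
      rw [Finset.coe_univ] at this
      exact (SimpleGraph.induceUnivIso G).connected_iff.1 this
    · have := G.sum_degrees_eq_twice_card_edges
      have h2 : ∑ v, G.degree v = 62 := by decide +kernel
      rw [Nat.card_eq_fintype_card, Nat.card_eq_fintype_card, ← SimpleGraph.edgeFinset_card]
      simp only [Fintype.card_fin]
      omega
  · have hm : ∀ k, k ∈ l.parts.sort (· ≥ ·) ↔ k ∈ l.parts := fun k => Multiset.mem_sort _
    have hs : (l.parts.sort (· ≥ ·)).sum = 32 := by
      rw [← Multiset.sum_coe, Multiset.sort_eq, l.parts_sum]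
    have h := chk_ok (l.parts.sort (· ≥ ·)) 32 32 32 [] hchk (Multiset.pairwise_sort _ _)
      (fun k hk => ⟨l.parts_pos ((hm k).1 hk), hs ▸ List.single_le_sum (by simp) k hk⟩) hs
    have := go_ok _ 16 12 2 1 0 le_rfl le_rfl le_rfl le_rfl
      (fun k hk => l.parts_pos ((hm k).1 (by simpa using hk))) h
    rw [hu] at this
    simpa [Q] using this

end Pool.Agent.Results.MP_6c5f5a_co.OneLeaf
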